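import Mathlib

/-!
# The E-lemma: definitions

Everything is about a finitely supported function `f : ℤ → ℕ` (the level sizes).
`Qp` : the Pollard value for three sets of integers of sizes `x, y, z` (times 4, without the
parity term); `g4` : with the parity term; `nn J f k` : number of levels of size at least `k`;
`vv J M f j` : the `j`-th largest level (conjugate sequence of `nn`); `HH` : see block `KG`.
-/

set_option autoImplicit false

namespace Pool.Agent.KE

open Finset

/-- `2xy+2yz+2zx-x²-y²-z²` in the triangle region, 4 times the product of the two smallest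
outside -/
def Qp (x y z : ℤ) : ℤ :=
  if y + z ≤ x then 4 * y * z
  else if x + z ≤ y then 4 * x * z
  else if x + y ≤ z then 4 * x * y
  else 2 * x * y + 2 * y * z + 2 * z * x - x ^ 2 - y ^ 2 - z ^ 2

/-- `Qp` plus the parity term -/
def g4 (x y z : ℤ) : ℤ :=
  Qp x y z + if y + z ≤ x ∨ x + z ≤ y ∨ x + y ≤ z then 0 else (x + y + z) % 2

/-- the number of `(a, b)` in `A × B` with `a + b` in `C` -/
def NZ (A B C : Finset ℤ) : ℤ := ∑ a ∈ A, ∑ b ∈ B, if a + b ∈ C then 1 else 0

/-- the set of levels of size at least `k` -/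
noncomputable def SS (J : ℕ) (f : ℤ → ℕ) (k : ℕ) : Finset ℤ := (Icc (-(J : ℤ)) J).filter (fun i => k ≤ f i)

/-- the number of levels of size at least `k` -/
noncomputable def nn (J : ℕ) (f : ℤ → ℕ) (k : ℕ) : ℕ := (SS J f k).card

/-- conjugate sequence of `n` (restricted to `[1, M]`): number of `k ∈ [1, M]` with `j ≤ n k` -/
def cj (M : ℕ) (n : ℕ → ℕ) (j : ℕ) : ℕ := ((Icc 1 M).filter (fun k => j ≤ n k)).card

/-- the pair function of the evaluation lemma -/
def HH (x y : ℤ) : ℤ :=
  if x ≤ y then 0 else if x ≤ 2 * y then (x - y) ^ 2 else 2 * x * y - 3 * y ^ 2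

/-- `HH` over the reals -/
noncomputable def HR (x y : ℝ) : ℝ :=
  if x ≤ y then 0 else if x ≤ 2 * y then (x - y) ^ 2 else 2 * x * y - 3 * y ^ 2

/-- the weights `0, 4, 12, 12, 20, 20, 28, 28, ...` (`dB 1 = 0, dB 2 = 4, dB 3 = 12, ...`) -/
def dB (j : ℕ) : ℤ := if j ≤ 1 then 0 else 8 * (((j - 1) / 2 : ℕ) : ℤ) + 4

end Pool.Agent.KE
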